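import Mathlib

/-! The shuffle-exchange factorisation: `(σG)^(2n-1)` is not the whole symmetric group as soon as
`k ≥ 3` and `n ≥ 3`. -/

set_option autoImplicit false

open Equiv

namespace Pool.Agent.W922.SX

/-- Words of length `n` over an alphabet of `k` letters; the letter number `i + 1` is `x i`. -/
abbrev Word (k n : ℕ) : Type := Fin n → Fin k

/-- The shuffle `x_1 x_2 ... x_n ↦ x_2 ... x_n x_1`. -/
def shuffle (k n : ℕ) : Perm (Word k n) where
  toFun x := fun i => x (finRotate n i)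
  invFun x := fun i => x ((finRotate n).symm i)
  left_inv x := funext fun i => congrArg x ((finRotate n).apply_symm_apply i)
  right_inv x := funext fun i => congrArg x ((finRotate n).symm_apply_apply i)

/-- The exchange group: `g w` and `w` have the same first `n - 1` letters, for every `w`. -/
def exchange (k n : ℕ) : Set (Perm (Word k n)) :=
  {g | ∀ (w : Word k n) (i : Fin n), (i : ℕ) + 1 < n → g w i = w i}

theorem shuffle_lt {k n : ℕ} (x : Word k n) (i : ℕ) (h : i + 1 < n) :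
    shuffle k n x ⟨i, by omega⟩ = x ⟨i + 1, h⟩ := by
  obtain ⟨N, rfl⟩ : ∃ N, n = N + 1 := ⟨n - 1, by omega⟩
  change x (finRotate (N + 1) ⟨i, _⟩) = _
  rw [finRotate_of_lt (by omega)]

/-- `run h m` is `h (m-1) σ h (m-2) σ ... h 0 σ` (composition of maps, rightmost first) -/
def run {k n : ℕ} (h : ℕ → Perm (Word k n)) : ℕ → Perm (Word k n)
  | 0 => 1
  | t + 1 => h t * shuffle k n * run h t

theorem run_step {k n : ℕ} (h : ℕ → Perm (Word k n)) (hh : ∀ t, h t ∈ exchange k n) (t : ℕ)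
    (x : Word k n) (i : ℕ) (hi : i + 1 < n) :
    run h (t + 1) x ⟨i, by omega⟩ = run h t x ⟨i + 1, hi⟩ := by
  change h t (shuffle k n (run h t x)) ⟨i, _⟩ = _
  rw [hh t _ _ hi, shuffle_lt _ _ hi]

theorem run_shift {k n : ℕ} (h : ℕ → Perm (Word k n)) (hh : ∀ t, h t ∈ exchange k n) (s : ℕ) :
    ∀ (t : ℕ) (x : Word k n) (i : ℕ) (hi : i + s < n),
    run h (t + s) x ⟨i, by omega⟩ = run h t x ⟨i + s, hi⟩ := by
  induction s with
  | zero => intro t x i hi; rfl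
  | succ s ih =>
    intro t x i hi
    rw [← add_assoc, run_step h hh (t + s) x i (by omega), ih t x (i + 1) (by omega)]
    exact congrArg _ (Fin.ext (by change i + 1 + s = i + (s + 1); omega))

/-- The abstract core, in terms of four windows `A, C, D, B`. -/
theorem core' {k n : ℕ} (hn : 3 ≤ n) (q0 : 0 < n) (q1 : 1 < n) (q2 : n - 2 < n)
    (q3 : n - 1 < n) (c0 c1 c2 : Fin k) (h02 : c0 ≠ c2) (h12 : c1 ≠ c2)
    (h01 : c0 ≠ c1) (A C D B : Perm (Word k n)) (y : Word k n → Word k n) (e f : Word k n)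
    (A0 : ∀ x, A x ⟨0, q0⟩ = x ⟨n - 2, q2⟩)
    (A1 : ∀ x, A x ⟨1, q1⟩ = x ⟨n - 1, q3⟩)
    (C0 : ∀ x, C x ⟨0, q0⟩ = x ⟨n - 1, q3⟩)
    (CA : ∀ x i (hi : i + 1 < n), C x ⟨i, Nat.lt_of_succ_lt hi⟩ = A x ⟨i + 1, hi⟩)
    (DC : ∀ x i (hi : i + 1 < n), D x ⟨i, Nat.lt_of_succ_lt hi⟩ = C x ⟨i + 1, hi⟩)
    (BD : ∀ x i (hi : i + 1 < n), B x ⟨i, Nat.lt_of_succ_lt hi⟩ = D x ⟨i + 1, hi⟩)
    (B0 : ∀ x, B x ⟨n - 2, q2⟩ = y x ⟨0, q0⟩)
    (B1 : ∀ x, B x ⟨n - 1, q3⟩ = y x ⟨1, q1⟩)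
    (D1 : ∀ x, D x ⟨n - 1, q3⟩ = y x ⟨0, q0⟩)
    (H1 : ∀ x : Word k n, x ⟨n - 1, q3⟩ = c0 →
      y x ⟨0, q0⟩ = c1 ∨ y x ⟨0, q0⟩ = c2)
    (H2 : ∀ x : Word k n, x ⟨n - 1, q3⟩ = c0 → x ⟨n - 2, q2⟩ ≠ c0 →
      y x ⟨0, q0⟩ = c1 ∧ y x ⟨1, q1⟩ = x ⟨n - 2, q2⟩)
    (H3 : ∀ x : Word k n, y x ⟨0, q0⟩ = c0 → y x ⟨1, q1⟩ ≠ c0 →
      x ⟨n - 2, q2⟩ = y x ⟨1, q1⟩ ∧ x ⟨n - 1, q3⟩ = c1)
    (H4 : ∀ x : Word k n, x ≠ e → x ⟨n - 2, q2⟩ = c0 → x ⟨n - 1, q3⟩ = c1 →
      y x ⟨0, q0⟩ = c1 ∧ y x ⟨1, q1⟩ = c0)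
    (H5 : ∀ x : Word k n, x ≠ f → y x ⟨0, q0⟩ = c1 → y x ⟨1, q1⟩ = c0 →
      x ⟨n - 2, q2⟩ = c0 ∧ x ⟨n - 1, q3⟩ = c1)
    (He1 : e ⟨n - 2, q2⟩ = c0) (He2 : e ⟨n - 1, q3⟩ = c1)
    (He3 : y e ⟨0, q0⟩ = c2) (Hf1 : f ⟨n - 1, q3⟩ = c2)
    (Hf2 : y f ⟨0, q0⟩ = c1) (Hf3 : y f ⟨1, q1⟩ = c0) : False := by
  -- equality of `D`, of `C`
  have Deq : ∀ x x', (∀ j (hj : j < n), 1 ≤ j → C x ⟨j, hj⟩ = C x' ⟨j, hj⟩) →
      y x ⟨0, q0⟩ = y x' ⟨0, q0⟩ → x = x' := by
    intro x x' h1 h2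
    apply D.injective
    funext ⟨i, hi⟩
    rcases Nat.lt_or_ge (i + 1) n with hlt | hge
    · rw [DC x i hlt, DC x' i hlt]
      exact h1 _ _ (by omega)
    · have hi' : i = n - 1 := by omega
      subst hi'
      rw [D1, D1, h2]
  have Ceq : ∀ x x', (∀ j (hj : j < n), 1 ≤ j → C x ⟨j, hj⟩ = C x' ⟨j, hj⟩) →
      x ⟨n - 1, q3⟩ = x' ⟨n - 1, q3⟩ → x = x' := by
    intro x x' h1 h2
    apply C.injective
    funext ⟨i, hi⟩
    rcases Nat.eq_zero_or_pos i with h0 | h0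
    · subst h0
      rw [C0, C0, h2]
    · exact h1 _ _ h0
  -- P1
  have P1 : ∀ x x', y x ⟨0, q0⟩ = c1 → y x ⟨1, q1⟩ = c0 → y x' ⟨0, q0⟩ = c1 →
      y x' ⟨1, q1⟩ = c0 → (∀ j (hj : j < n), 1 ≤ j → j + 1 < n → C x ⟨j, hj⟩ = C x' ⟨j, hj⟩) →
      x = x' := by
    intro x x' hx0 hx1 hx'0 hx'1 hμ
    have hex : ∀ v : Fin k, ∃ w : Word k n, y w ⟨0, q0⟩ = c1 ∧ y w ⟨1, q1⟩ = v ∧
        (∀ j (hj : j < n), 1 ≤ j → j + 1 < n → C w ⟨j, hj⟩ = C x ⟨j, hj⟩) ∧ (v = c0 → w = x) := by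
      intro v
      by_cases hv : v = c0
      · subst hv
        exact ⟨x, hx0, hx1, fun _ _ _ _ => rfl, fun _ => rfl⟩
      · obtain ⟨w, hw⟩ := A.surjective (fun i : Fin n => if (i : ℕ) = 0 then v else
          if (i : ℕ) = 1 then c0 else C x ⟨(i : ℕ) - 1, lt_of_le_of_lt (Nat.sub_le _ _) i.2⟩)
        have w0 : w ⟨n - 2, q2⟩ = v := by
          rw [← A0 w, hw]
          exact if_pos rfl
        have w1 : w ⟨n - 1, q3⟩ = c0 := by
          rw [← A1 w, hw]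
          exact (if_neg one_ne_zero).trans (if_pos rfl)
        have h2 := H2 w w1 (by rw [w0]; exact hv)
        refine ⟨w, h2.1, by rw [h2.2, w0], ?_, fun hv' => absurd hv' hv⟩
        intro j hj hj1 hj2
        rw [CA w j hj2, hw]
        exact (if_neg (by change ¬ (j + 1 = 0); omega)).trans
          (if_neg (by change ¬ (j + 1 = 1); omega))
    choose φ φ0 φ1 φμ φx using hex
    have hinj : Function.Injective (fun v => C (φ v) ⟨n - 1, q3⟩) := by
      intro v v' hvv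
      have : φ v = φ v' := by
        apply Deq
        · intro j hj hj1
          rcases Nat.lt_or_ge (j + 1) n with hlt | hge
          · rw [φμ v j hj hj1 hlt, φμ v' j hj hj1 hlt]
          · have : j = n - 1 := by omega
            subst this
            exact hvv
        · rw [φ0, φ0]
      rw [← φ1 v, ← φ1 v', this]
    obtain ⟨v, hv⟩ := (Finite.injective_iff_surjective.1 hinj) (C x' ⟨n - 1, q3⟩)
    have hxx : φ v = x' := by
      apply Deq
      · intro j hj hj1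
        rcases Nat.lt_or_ge (j + 1) n with hlt | hge
        · rw [φμ v j hj hj1 hlt, hμ j hj hj1 hlt]
        · have : j = n - 1 := by omega
          subst this
          exact hv
      · rw [φ0, hx'0]
    have hv0 : v = c0 := by rw [← φ1 v, hxx, hx'1]
    rw [← φx v hv0, hxx]
  -- P2
  have P2 : ∀ x x' : Word k n, x ⟨n - 2, q2⟩ = c0 → x ⟨n - 1, q3⟩ = c1 →
      x' ⟨n - 2, q2⟩ = c0 → x' ⟨n - 1, q3⟩ = c1 →
      (∀ j (hj : j < n), 2 ≤ j → C x ⟨j, hj⟩ = C x' ⟨j, hj⟩) → x = x' := by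
    intro x x' hx0 hx1 hx'0 hx'1 hμ
    have hex : ∀ u : Fin k, ∃ w : Word k n, w ⟨n - 2, q2⟩ = u ∧ w ⟨n - 1, q3⟩ = c1 ∧
        (∀ j (hj : j < n), 2 ≤ j → C w ⟨j, hj⟩ = C x ⟨j, hj⟩) ∧ (u = c0 → w = x) := by
      intro u
      by_cases hu : u = c0
      · subst hu
        exact ⟨x, hx0, hx1, fun _ _ _ => rfl, fun _ => rfl⟩
      · obtain ⟨w, hw⟩ := B.surjective (fun i : Fin n => if hi : (i : ℕ) + 2 < n then
          C x ⟨(i : ℕ) + 2, hi⟩ else if (i : ℕ) = n - 2 then c0 else u)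
        have y0 : y w ⟨0, q0⟩ = c0 := by
          rw [← B0, hw]
          exact (dif_neg (by change ¬ (n - 2 + 2 < n); omega)).trans (if_pos rfl)
        have y1 : y w ⟨1, q1⟩ = u := by
          rw [← B1, hw]
          exact (dif_neg (by change ¬ (n - 1 + 2 < n); omega)).trans
            (if_neg (by change ¬ (n - 1 = n - 2); omega))
        have h3 := H3 w y0 (by rw [y1]; exact hu)
        refine ⟨w, by rw [h3.1, y1], h3.2, ?_, fun hu' => absurd hu' hu⟩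
        intro j hj hj2
        obtain ⟨i, rfl⟩ : ∃ i, j = i + 2 := ⟨j - 2, by omega⟩
        have : B w ⟨i, by omega⟩ = C w ⟨i + 2, hj⟩ := by
          rw [BD w i (by omega), DC w (i + 1) hj]
        rw [← this, hw]
        exact dif_pos hj
    choose φ φ0 φ1 φμ φx using hex
    have hinj : Function.Injective (fun u => C (φ u) ⟨1, q1⟩) := by
      intro u u' huu
      have : φ u = φ u' := by
        apply Ceq
        · intro j hj hj1
          rcases Nat.lt_or_ge j 2 with hlt | hge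
          · have : j = 1 := by omega
            subst this
            exact huu
          · rw [φμ u j hj hge, φμ u' j hj hge]
        · rw [φ1, φ1]
      rw [← φ0 u, ← φ0 u', this]
    obtain ⟨u, hu⟩ := (Finite.injective_iff_surjective.1 hinj) (C x' ⟨1, q1⟩)
    have hxx : φ u = x' := by
      apply Ceq
      · intro j hj hj1
        rcases Nat.lt_or_ge j 2 with hlt | hge
        · have : j = 1 := by omega
          subst this
          exact hu
        · rw [φμ u j hj hge, hμ j hj hge]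
      · rw [φ1, hx'1]
    have hu0 : u = c0 := by rw [← φ0 u, hxx, hx'0]
    rw [← φx u hu0, hxx]
  -- equality of the middle letters of `e` and `f`, first half
  have E1 : ∀ j (hj : j < n), 1 ≤ j → j + 1 < n → C e ⟨j, hj⟩ = C f ⟨j, hj⟩ := by
    obtain ⟨x, hx⟩ := A.surjective (fun i : Fin n => if (i : ℕ) = 0 then c0 else
      if (i : ℕ) = 1 then c1 else C f ⟨(i : ℕ) - 1, lt_of_le_of_lt (Nat.sub_le _ _) i.2⟩)
    have x0 : x ⟨n - 2, q2⟩ = c0 := by
      rw [← A0 x, hx]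
      exact if_pos rfl
    have x1 : x ⟨n - 1, q3⟩ = c1 := by
      rw [← A1 x, hx]
      exact (if_neg one_ne_zero).trans (if_pos rfl)
    have hμ : ∀ j (hj : j < n), 1 ≤ j → j + 1 < n → C x ⟨j, hj⟩ = C f ⟨j, hj⟩ := by
      intro j hj hj1 hj2
      rw [CA x j hj2, hx]
      exact (if_neg (by change ¬ (j + 1 = 0); omega)).trans
        (if_neg (by change ¬ (j + 1 = 1); omega))
    by_cases hxe : x = e
    · rw [← hxe]
      exact hμ
    · exfalso
      have h4 := H4 x hxe x0 x1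
      have := P1 x f h4.1 h4.2 Hf2 Hf3 hμ
      rw [this, Hf1] at x1
      exact h12 x1.symm
  -- second half
  have E2 : ∀ j (hj : j < n), 2 ≤ j → C e ⟨j, hj⟩ = C f ⟨j, hj⟩ := by
    obtain ⟨x, hx⟩ := B.surjective (fun i : Fin n => if hi : (i : ℕ) + 2 < n then
      C e ⟨(i : ℕ) + 2, hi⟩ else if (i : ℕ) = n - 2 then c1 else c0)
    have y0 : y x ⟨0, q0⟩ = c1 := by
      rw [← B0, hx]
      exact (dif_neg (by change ¬ (n - 2 + 2 < n); omega)).trans (if_pos rfl)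
    have y1 : y x ⟨1, q1⟩ = c0 := by
      rw [← B1, hx]
      exact (dif_neg (by change ¬ (n - 1 + 2 < n); omega)).trans
        (if_neg (by change ¬ (n - 1 = n - 2); omega))
    have hμ : ∀ j (hj : j < n), 2 ≤ j → C x ⟨j, hj⟩ = C e ⟨j, hj⟩ := by
      intro j hj hj2
      obtain ⟨i, rfl⟩ : ∃ i, j = i + 2 := ⟨j - 2, by omega⟩
      have : B x ⟨i, by omega⟩ = C x ⟨i + 2, hj⟩ := by
        rw [BD x i (by omega), DC x (i + 1) hj]
      rw [← this, hx]
      exact dif_pos hj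
    by_cases hxf : x = f
    · rw [← hxf]
      exact fun j hj hj2 => (hμ j hj hj2).symm
    · exfalso
      have h5 := H5 x hxf y0 y1
      have := P2 x e h5.1 h5.2 He1 He2 hμ
      rw [this, He3] at y0
      exact h12 y0.symm
  have E : ∀ j (hj : j < n), 1 ≤ j → C e ⟨j, hj⟩ = C f ⟨j, hj⟩ := by
    intro j hj hj1
    rcases Nat.lt_or_ge (j + 1) n with hlt | hge
    · exact E1 j hj hj1 hlt
    · exact E2 j hj (by omega)
  -- conclusion
  obtain ⟨g, hg⟩ := C.surjective (fun i : Fin n => if (i : ℕ) = 0 then c0 else C e i)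
  have g0 : g ⟨n - 1, q3⟩ = c0 := by
    rw [← C0 g, hg]
    exact if_pos rfl
  have hge : ∀ j (hj : j < n), 1 ≤ j → C g ⟨j, hj⟩ = C e ⟨j, hj⟩ := by
    intro j hj hj1
    rw [hg]
    exact if_neg (by change ¬ (j = 0); omega)
  rcases H1 g g0 with hy1 | hy1
  · have : g = f := Deq g f (fun j hj hj1 => by rw [hge j hj hj1, E j hj hj1]) (by rw [hy1, Hf2])
    rw [this, Hf1] at g0
    exact h02 g0.symm
  · have : g = e := Deq g e hge (by rw [hy1, He3])
    rw [this, He2] at g0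
    exact h01 g0.symm

end Pool.Agent.W922.SX
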