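import Pool.Agent.W922.SX.Core

/-! The shuffle-exchange factorisation: the bad permutation, and both composition conventions. -/

set_option autoImplicit false

open Equiv

namespace Pool.Agent.W922.SX

section bad

variable {k n : ℕ}

/-- the exchange of first letters -/
def sg (c0 c1 c2 : Fin k) (u : Fin k) : Perm (Fin k) := if u = c0 then swap c0 c2 else swap c0 c1

/-- the base permutation -/
def base (q2 : n - 2 < n) (q3 : n - 1 < n) (c0 c1 c2 : Fin k) (x : Word k n) : Word k n :=
  fun i => if (i : ℕ) = 0 then sg c0 c1 c2 (x ⟨n - 2, q2⟩) (x ⟨n - 1, q3⟩)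
    else if (i : ℕ) = 1 then x ⟨n - 2, q2⟩ else x ⟨(i : ℕ) - 2, lt_of_le_of_lt (Nat.sub_le _ _) i.2⟩

theorem base_inj (hn : 3 ≤ n) (q2 : n - 2 < n) (q3 : n - 1 < n) (c0 c1 c2 : Fin k) :
    Function.Injective (base q2 q3 c0 c1 c2) := by
  intro x x' h
  have e1 : x ⟨n - 2, q2⟩ = x' ⟨n - 2, q2⟩ := congrFun h ⟨1, by omega⟩
  have e0 : sg c0 c1 c2 (x ⟨n - 2, q2⟩) (x ⟨n - 1, q3⟩) =
      sg c0 c1 c2 (x' ⟨n - 2, q2⟩) (x' ⟨n - 1, q3⟩) := congrFun h ⟨0, by omega⟩
  rw [e1] at e0
  have e0' := (sg c0 c1 c2 (x' ⟨n - 2, q2⟩)).injective e0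
  funext ⟨i, hi⟩
  by_cases h2 : i = n - 2
  · subst h2
    exact e1
  by_cases h3 : i = n - 1
  · subst h3
    exact e0'
  have hi2 : i + 2 < n := by omega
  have := congrFun h ⟨i + 2, hi2⟩
  unfold base at this
  simpa using this

theorem exists_bad (hk : 3 ≤ k) (hn : 3 ≤ n) :
    ∃ π : Perm (Word k n), ∀ h : ℕ → Perm (Word k n), (∀ t, h t ∈ exchange k n) →
      run h (2 * n - 1) ≠ π := by
  have q0 : 0 < n := by omega
  have q1 : 1 < n := by omega
  have q2 : n - 2 < n := by omega
  have q3 : n - 1 < n := by omega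
  obtain ⟨c0, hc0⟩ : ∃ c : Fin k, (c : ℕ) = 0 := ⟨⟨0, by omega⟩, rfl⟩
  obtain ⟨c1, hc1⟩ : ∃ c : Fin k, (c : ℕ) = 1 := ⟨⟨1, by omega⟩, rfl⟩
  obtain ⟨c2, hc2⟩ : ∃ c : Fin k, (c : ℕ) = 2 := ⟨⟨2, by omega⟩, rfl⟩
  have h01 : c0 ≠ c1 := fun h => by rw [h] at hc0; omega
  have h02 : c0 ≠ c2 := fun h => by rw [h] at hc0; omega
  have h12 : c1 ≠ c2 := fun h => by rw [h] at hc1; omega
  clear hc0 hc1 hc2
  set P0 : Perm (Word k n) := Equiv.ofBijective (base q2 q3 c0 c1 c2)
    (Finite.injective_iff_bijective.1 (base_inj hn q2 q3 c0 c1 c2)) with hP0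
  set e : Word k n := fun i => if (i : ℕ) = n - 1 then c1 else c0 with he
  set f : Word k n := fun i => if (i : ℕ) = n - 1 then c2 else if (i : ℕ) = n - 2 then c1 else c0
    with hf
  have nee : ¬ (n - 2 = n - 1) := by omega
  have e2 : e ⟨n - 2, q2⟩ = c0 := if_neg nee
  have e3 : e ⟨n - 1, q3⟩ = c1 := if_pos rfl
  have f2 : f ⟨n - 2, q2⟩ = c1 := (if_neg nee).trans (if_pos rfl)
  have f3 : f ⟨n - 1, q3⟩ = c2 := if_pos rfl
  have P00 : ∀ x, P0 x ⟨0, q0⟩ = sg c0 c1 c2 (x ⟨n - 2, q2⟩) (x ⟨n - 1, q3⟩) := fun x => rfl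
  have P01 : ∀ x, P0 x ⟨1, q1⟩ = x ⟨n - 2, q2⟩ := fun x => rfl
  clear_value P0 e f
  have s0 : sg c0 c1 c2 c0 = swap c0 c2 := if_pos rfl
  have s1 : ∀ u, u ≠ c0 → sg c0 c1 c2 u = swap c0 c1 := fun u hu => if_neg hu
  refine ⟨(swap e f).trans P0, ?_⟩
  intro h hh hrun
  set y : Word k n → Word k n := fun x => P0 (swap e f x) with hy
  have ye : y e = P0 f := by rw [hy]; simp only [swap_apply_left]
  have yf : y f = P0 e := by rw [hy]; simp only [swap_apply_right]
  have yx : ∀ x, x ≠ e → x ≠ f → y x = P0 x := fun x hx hx' => by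
    rw [hy]; simp only [swap_apply_of_ne_of_ne hx hx']
  have hyr : ∀ x, run h (2 * n - 1) x = y x := fun x => by rw [hrun]; rfl
  clear_value y
  have ye0 : y e ⟨0, q0⟩ = c2 := by
    rw [ye, P00, f2, f3, s1 c1 h01.symm, swap_apply_of_ne_of_ne h02.symm h12.symm]
  have ye1 : y e ⟨1, q1⟩ = c1 := by rw [ye, P01, f2]
  have yf0 : y f ⟨0, q0⟩ = c1 := by
    rw [yf, P00, e2, e3, s0, swap_apply_of_ne_of_ne h01.symm h12]
  have yf1 : y f ⟨1, q1⟩ = c0 := by rw [yf, P01, e2]
  -- elements with last letter c0 are neither e nor f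
  have nl : ∀ x : Word k n, x ⟨n - 1, q3⟩ = c0 → x ≠ e ∧ x ≠ f := by
    intro x hx
    constructor
    · rintro rfl
      exact h01 (hx.symm.trans e3)
    · rintro rfl
      exact h02 (hx.symm.trans f3)
  refine core' hn q0 q1 q2 q3 c0 c1 c2 h02 h12 h01 (run h (n - 2)) (run h (n - 1)) (run h n)
    (run h (n + 1)) y e f ?_ ?_ ?_ ?_ ?_ ?_ ?_ ?_ ?_ ?_ ?_ ?_ ?_ ?_ e2 e3 ye0 f3 yf0 yf1
  · intro x
    have := run_shift h hh (n - 2) 0 x 0 (by omega)
    simp only [zero_add] at this
    exact this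
  · intro x
    have := run_shift h hh (n - 2) 0 x 1 (by omega)
    simp only [zero_add] at this
    exact this.trans (congrArg x (Fin.ext (by change 1 + (n - 2) = n - 1; omega)))
  · intro x
    have := run_shift h hh (n - 1) 0 x 0 (by omega)
    simp only [zero_add] at this
    exact this
  · intro x i hi
    have := run_step h hh (n - 2) x i hi
    have e1 : n - 2 + 1 = n - 1 := by omega
    rw [e1] at this
    exact this
  · intro x i hi
    have := run_step h hh (n - 1) x i hi
    have e1 : n - 1 + 1 = n := by omega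
    rw [e1] at this
    exact this
  · intro x i hi
    exact run_step h hh n x i hi
  · intro x
    have := run_shift h hh (n - 2) (n + 1) x 0 (by omega)
    have e1 : n + 1 + (n - 2) = 2 * n - 1 := by omega
    rw [e1, hyr] at this
    exact (congrArg _ (Fin.ext (by change n - 2 = 0 + (n - 2); omega))).trans this.symm
  · intro x
    have := run_shift h hh (n - 2) (n + 1) x 1 (by omega)
    have e1 : n + 1 + (n - 2) = 2 * n - 1 := by omega
    rw [e1, hyr] at this
    exact (congrArg _ (Fin.ext (by change n - 1 = 1 + (n - 2); omega))).trans this.symm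
  · intro x
    have := run_shift h hh (n - 1) n x 0 (by omega)
    have e1 : n + (n - 1) = 2 * n - 1 := by omega
    rw [e1, hyr] at this
    exact (congrArg _ (Fin.ext (by change n - 1 = 0 + (n - 1); omega))).trans this.symm
  · -- H1
    intro x hx
    obtain ⟨a, b⟩ := nl x hx
    rw [yx x a b, P00, hx]
    by_cases hu : x ⟨n - 2, q2⟩ = c0
    · right
      rw [hu, s0, swap_apply_left]
    · left
      rw [s1 _ hu, swap_apply_left]
  · -- H2
    intro x hx hu
    obtain ⟨a, b⟩ := nl x hx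
    rw [yx x a b, P00, P01, hx, s1 _ hu, swap_apply_left]
    exact ⟨rfl, rfl⟩
  · -- H3
    intro x hx0 hx1
    by_cases a : x = e
    · subst a
      exact absurd (ye0.symm.trans hx0) h02.symm
    by_cases b : x = f
    · subst b
      exact absurd (yf0.symm.trans hx0) h01.symm
    rw [yx x a b, P01] at hx1
    rw [yx x a b, P00, s1 _ hx1] at hx0
    rw [yx x a b, P01]
    exact ⟨rfl, (swap c0 c1).injective (hx0.trans (swap_apply_right c0 c1).symm)⟩
  · -- H4
    intro x a hu hl
    have b : x ≠ f := by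
      rintro rfl
      exact h12 (hl.symm.trans f3)
    rw [yx x a b, P00, P01, hu, hl, s0, swap_apply_of_ne_of_ne h01.symm h12]
    exact ⟨rfl, rfl⟩
  · -- H5
    intro x b hx0 hx1
    by_cases a : x = e
    · subst a
      exact absurd (ye0.symm.trans hx0) h12.symm
    rw [yx x a b, P01] at hx1
    rw [yx x a b, P00, hx1, s0] at hx0
    exact ⟨hx1, (swap c0 c2).injective
      (hx0.trans (swap_apply_of_ne_of_ne h01.symm h12).symm)⟩

end bad

/-! ### The two composition conventions -/

/-- the permutations of the form `run h m` -/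
def Run (k n m : ℕ) : Set (Perm (Word k n)) :=
  {π | ∃ h : ℕ → Perm (Word k n), (∀ t, h t ∈ exchange k n) ∧ run h m = π}

theorem one_mem (k n : ℕ) : (1 : Perm (Word k n)) ∈ exchange k n := fun _ _ _ => rfl

theorem run_congr {k n : ℕ} (h h' : ℕ → Perm (Word k n)) (m : ℕ) (hm : ∀ t < m, h t = h' t) :
    run h m = run h' m := by
  induction m with
  | zero => rfl
  | succ m ih =>
    change h m * shuffle k n * run h m = h' m * shuffle k n * run h' m
    rw [hm m (by omega), ih (fun t ht => hm t (by omega))]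

theorem Run_succ {k n m : ℕ} (hm : Run k n m = Set.univ) : Run k n (m + 1) = Set.univ := by
  rw [Set.eq_univ_iff_forall] at hm ⊢
  intro π
  obtain ⟨h, hh, hr⟩ := hm ((shuffle k n)⁻¹ * π)
  refine ⟨fun t => if t < m then h t else 1, ?_, ?_⟩
  · intro t
    by_cases ht : t < m
    · simp only [if_pos ht]
      exact hh t
    · simp only [if_neg ht]
      exact one_mem k n
  · change (if m < m then h m else 1) * shuffle k n * run _ m = π
    rw [if_neg (lt_irrefl m), run_congr _ h m (fun t ht => if_pos ht), hr, one_mul,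
      mul_inv_cancel_left]

theorem Run_mono {k n m m' : ℕ} (hmm : m ≤ m') (hm : Run k n m = Set.univ) :
    Run k n m' = Set.univ := by
  induction m', hmm using Nat.le_induction with
  | base => exact hm
  | succ m' _ ih => exact Run_succ ih

theorem Run_bound {k n m : ℕ} (hk : 3 ≤ k) (hn : 3 ≤ n) (hm : Run k n m = Set.univ) :
    2 * n ≤ m := by
  by_contra hcon
  have h1 := Run_mono (show m ≤ 2 * n - 1 by omega) hm
  obtain ⟨π, hπ⟩ := exists_bad hk hn
  obtain ⟨h, hh, hr⟩ := (Set.eq_univ_iff_forall.1 h1) π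
  exact hπ h hh hr

theorem ofFn_left {k n : ℕ} (m : ℕ) : ∀ g : Fin m → Perm (Word k n),
    (List.ofFn fun i => g i * shuffle k n).reverse.prod =
      run (fun t => if ht : t < m then g ⟨t, ht⟩ else 1) m := by
  induction m with
  | zero => intro g; rfl
  | succ m ih =>
    intro g
    rw [List.ofFn_succ', List.concat_eq_append, List.reverse_append, List.reverse_singleton,
      List.singleton_append, List.prod_cons, ih]
    change _ = (if ht : m < m + 1 then g ⟨m, ht⟩ else 1) * shuffle k n * run _ m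
    rw [dif_pos (Nat.lt_succ_self m)]
    congr 1
    apply run_congr
    intro t ht
    rw [dif_pos ht, dif_pos (Nat.lt_succ_of_lt ht)]
    rfl

theorem ofFn_right {k n : ℕ} (m : ℕ) : ∀ g : Fin m → Perm (Word k n),
    (List.ofFn fun i => shuffle k n * g i).prod = shuffle k n *
      run (fun t => if ht : m - 1 - t < m then g ⟨m - 1 - t, ht⟩ else 1) m * (shuffle k n)⁻¹ := by
  induction m with
  | zero => intro g; simp [run]
  | succ m ih =>
    intro g
    rw [List.ofFn_succ, List.prod_cons, ih]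
    change _ = shuffle k n * ((if ht : m + 1 - 1 - m < m + 1 then g ⟨m + 1 - 1 - m, ht⟩ else 1) *
      shuffle k n * run _ m) * (shuffle k n)⁻¹
    have e0 : (if ht : m + 1 - 1 - m < m + 1 then g ⟨m + 1 - 1 - m, ht⟩ else 1) = g 0 := by
      rw [dif_pos (by omega)]
      exact congrArg g (Fin.ext (by change m + 1 - 1 - m = 0; omega))
    rw [e0]
    have e1 : run (fun t => if ht : m - 1 - t < m then g (Fin.succ ⟨m - 1 - t, ht⟩) else 1) m =
        run (fun t => if ht : m + 1 - 1 - t < m + 1 then g ⟨m + 1 - 1 - t, ht⟩ else 1) m := by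
      apply run_congr
      intro t ht
      rw [dif_pos (by omega), dif_pos (by omega)]
      exact congrArg g (Fin.ext (by change m - 1 - t + 1 = m + 1 - 1 - t; omega))
    rw [e1]
    simp only [mul_assoc]

end Pool.Agent.W922.SX
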