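import Pool.Agent.W922.SX.Num

/-! Edge-disjoint paths in the multistage shuffle-exchange graph and factorisations. -/

set_option autoImplicit false

open Equiv

namespace Pool.Agent.W922.SX.Net

open Pool.Agent.W922.SX
open Pool.Agent.Results.MP_ec5f85_co.ShuffleThree (SEAdj stageGraph IsMask Rearrangeable)

/-- the nodes of a stage -/
abbrev Node (k m : ℕ) : Type := Fin (k ^ (m + 2 - 1))

variable {k m : ℕ}

/-- The edge from node `i` of stage `s` to node `j` of stage `s + 1`. -/
def le {r : ℕ} (s : ℕ) (h : s + 1 < r) (i j : Node k m) : Sym2 (Fin r × Node k m) :=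
  s((⟨s, by omega⟩, i), (⟨s + 1, h⟩, j))

lemma le_inj {r : ℕ} {s s' : ℕ} {h : s + 1 < r} {h' : s' + 1 < r} {i j i' j' : Node k m}
    (he : le s h i j = le s' h' i' j') : s = s' ∧ i = i' ∧ j = j' := by
  unfold le at he
  rw [Sym2.eq_iff] at he
  simp only [Prod.mk.injEq, Fin.mk.injEq] at he
  rcases he with ⟨⟨h1, h2⟩, ⟨h3, h4⟩⟩ | ⟨⟨h1, h2⟩, ⟨h3, h4⟩⟩
  · exact ⟨h1, h2, h4⟩
  · omega

lemma crossing {r : ℕ} {u v : Fin r × Node k m} (p : (stageGraph k (m + 2) r).Walk u v)
    (S : Set (Fin r × Node k m)) (hu : u ∈ S) (hv : v ∉ S) :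
    ∃ a b, (stageGraph k (m + 2) r).Adj a b ∧ s(a, b) ∈ p.edges ∧ a ∈ S ∧ b ∉ S := by
  obtain ⟨d, hd, h1, h2⟩ := p.exists_boundary_dart S hu hv
  exact ⟨d.fst, d.snd, d.adj, List.mem_map_of_mem (f := SimpleGraph.Dart.edge) hd, h1, h2⟩

lemma card_mask {H : Node k m → Node k m → ℕ} (hH : IsMask k (m + 2) H) :
    Fintype.card (Σ x : Node k m, Σ y : Node k m, Fin (H x y)) = k ^ (m + 2) := by
  simp only [Fintype.card_sigma, Fintype.card_fin]
  rw [Finset.sum_congr rfl (fun x _ => hH.1 x)]
  rw [Finset.sum_const, Finset.card_univ, Fintype.card_fin, smul_eq_mul]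
  change k ^ (m + 1) * k = k ^ (m + 2)
  rw [← pow_succ]


theorem words {r : ℕ} (hr : 2 ≤ r) {H : Node k m → Node k m → ℕ} (hH : IsMask k (m + 2) H)
    {first last : Fin r} (hfirst : (first : ℕ) = 0) (hlast : (last : ℕ) + 1 = r)
    (P : (e : Σ x : Node k m, Σ y : Node k m, Fin (H x y)) →
          (stageGraph k (m + 2) r).Path (first, e.1) (last, e.2.1))
    (hP : ∀ e e', e ≠ e' → ∀ a ∈ (P e).1.edges, a ∉ (P e').1.edges) :
    ∃ w : (Σ x : Node k m, Σ y : Node k m, Fin (H x y)) → ℕ → Node k m, (∀ e, w e 0 = e.1) ∧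
      (∀ e, w e (r - 1) = e.2.1) ∧
      (∀ e s, s + 1 < r → SEAdj k (m + 2) (w e s) (w e (s + 1))) ∧
      (∀ e e', e ≠ e' → ∀ s, s + 1 < r → ¬ (w e s = w e' s ∧ w e (s + 1) = w e' (s + 1))) := by
  classical
  have hlev : ∀ (e : Σ x : Node k m, Σ y : Node k m, Fin (H x y)) (s : ℕ) (h : s + 1 < r),
      ∃ ij : Node k m × Node k m, SEAdj k (m + 2) ij.1 ij.2 ∧ le s h ij.1 ij.2 ∈ (P e).1.edges := by
    intro e s h
    obtain ⟨a, b, hab, hmem, ha, hb⟩ := crossing (P e).1 {p | (p.1 : ℕ) ≤ s}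
      (by simp only [Set.mem_ofPred_eq]; omega) (by simp only [Set.mem_ofPred_eq]; omega)
    simp only [Set.mem_ofPred_eq] at ha hb
    rcases hab with ⟨h1, h2⟩ | ⟨h1, -⟩
    · refine ⟨(a.2, b.2), h2, ?_⟩
      have e1 : a = (⟨s, by omega⟩, a.2) := Prod.ext (Fin.ext (by simp only; omega)) rfl
      have e2 : b = (⟨s + 1, h⟩, b.2) := Prod.ext (Fin.ext (by simp only; omega)) rfl
      unfold le
      rwa [← e1, ← e2]
    · omega
  choose f hf1 hf2 using hlev
  have hinj : ∀ s (h : s + 1 < r) e e', f e s h = f e' s h → e = e' := by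
    intro s h e e' he
    by_contra hne
    have h1 := hf2 e s h
    rw [he] at h1
    exact hP e e' hne _ h1 (hf2 e' s h)
  have huniq : ∀ e s (h : s + 1 < r) (i j : Node k m), SEAdj k (m + 2) i j →
      le s h i j ∈ (P e).1.edges → f e s h = (i, j) := by
    intro e s h i j hij hmem
    let F : (Σ x : Node k m, Σ y : Node k m, Fin (H x y)) → {ij : Node k m × Node k m // SEAdj k (m + 2) ij.1 ij.2} :=
      fun e => ⟨f e s h, hf1 e s h⟩
    have hF : Function.Injective F := by
      intro e e' he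
      exact hinj s h e e' (congrArg Subtype.val he)
    have hbij : Function.Bijective F := by
      rw [Fintype.bijective_iff_injective_and_card]
      exact ⟨hF, by rw [card_mask hH, card_level]⟩
    obtain ⟨e', he'⟩ := hbij.2 ⟨(i, j), hij⟩
    have h1 : f e' s h = (i, j) := congrArg Subtype.val he'
    have h2 := hf2 e' s h
    rw [h1] at h2
    have h3 : e = e' := by
      by_contra hne
      exact hP e e' hne _ hmem h2
    rw [h3]
    exact h1
  have hglue : ∀ e s (h : s + 1 < r) (h' : s + 1 + 1 < r), (f e s h).2 = (f e (s + 1) h').1 := by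
    intro e s h h'
    obtain ⟨a, b, hab, hmem, ha, hb⟩ := crossing (P e).1
      ({p | (p.1 : ℕ) ≤ s} ∪ {(⟨s + 1, h⟩, (f e s h).2)})
      (by left; simp only [Set.mem_ofPred_eq]; omega)
      (by
        rintro (h1 | h1)
        · simp only [Set.mem_ofPred_eq] at h1; omega
        · rw [Set.mem_singleton_iff] at h1
          have h2 := congrArg (fun p => (p.1 : ℕ)) h1
          simp only at h2
          omega)
    rw [Set.mem_union, not_or, Set.mem_ofPred_eq, Set.mem_singleton_iff] at hb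
    rcases ha with ha | ha
    · rw [Set.mem_ofPred_eq] at ha
      exfalso
      rcases hab with ⟨h1, h2⟩ | ⟨h1, -⟩
      · have e1 : a = (⟨s, by omega⟩, a.2) := Prod.ext (Fin.ext (by simp only; omega)) rfl
        have e2 : b = (⟨s + 1, h⟩, b.2) := Prod.ext (Fin.ext (by simp only; omega)) rfl
        have h3 : le s h a.2 b.2 ∈ (P e).1.edges := by
          unfold le
          rwa [← e1, ← e2]
        have h4 := huniq e s h _ _ h2 h3
        apply hb.2
        rw [h4]
        exact e2
      · omega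
    · rw [Set.mem_singleton_iff] at ha
      rcases hab with ⟨h1, h2⟩ | ⟨h1, -⟩
      · have ha1 : (a.1 : ℕ) = s + 1 := by rw [ha]
        have ha2 : a.2 = (f e s h).2 := by rw [ha]
        have e1 : a = (⟨s + 1, by omega⟩, a.2) := Prod.ext (Fin.ext (by simp only; omega)) rfl
        have e2 : b = (⟨s + 1 + 1, h'⟩, b.2) := Prod.ext (Fin.ext (by simp only; omega)) rfl
        have h3 : le (s + 1) h' a.2 b.2 ∈ (P e).1.edges := by
          unfold le
          rwa [← e1, ← e2]
        have h4 := huniq e (s + 1) h' _ _ h2 h3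
        rw [h4, ← ha2]
      · have ha1 : (a.1 : ℕ) = s + 1 := by rw [ha]
        omega
  have hstart : ∀ e, (f e 0 (by omega)).1 = e.1 := by
    intro e
    obtain ⟨a, b, hab, hmem, ha, hb⟩ := crossing (P e).1 {(first, e.1)}
      (Set.mem_singleton _) (by
        intro h1
        rw [Set.mem_singleton_iff] at h1
        have h2 := congrArg (fun p => (p.1 : ℕ)) h1
        simp only at h2
        omega)
    rw [Set.mem_singleton_iff] at ha
    have ha1 : (a.1 : ℕ) = 0 := by rw [ha]; exact hfirst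
    have ha2 : a.2 = e.1 := by rw [ha]
    rcases hab with ⟨h1, h2⟩ | ⟨h1, -⟩
    · have e1 : a = (⟨0, by omega⟩, a.2) := Prod.ext (Fin.ext (by simp only; omega)) rfl
      have e2 : b = (⟨0 + 1, by omega⟩, b.2) := Prod.ext (Fin.ext (by simp only; omega)) rfl
      have h3 : le 0 (by omega) a.2 b.2 ∈ (P e).1.edges := by
        unfold le
        rwa [← e1, ← e2]
      have h4 := huniq e 0 (by omega) _ _ h2 h3
      rw [h4, ← ha2]
    · omega
  have hend : ∀ e s (h : s + 1 < r), s + 1 + 1 = r → (f e s h).2 = e.2.1 := by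
    intro e s h hs
    obtain ⟨a, b, hab, hmem, ha, hb⟩ := crossing (P e).1 {(last, e.2.1)}ᶜ
      (by
        intro h1
        rw [Set.mem_singleton_iff] at h1
        have h2 := congrArg (fun p => (p.1 : ℕ)) h1
        simp only at h2
        omega) (by simp)
    rw [Set.mem_compl_iff, not_not, Set.mem_singleton_iff] at hb
    have hb1 : (b.1 : ℕ) + 1 = r := by rw [hb]; exact hlast
    have hb2 : b.2 = e.2.1 := by rw [hb]
    rcases hab with ⟨h1, h2⟩ | ⟨h1, -⟩
    · have e1 : a = (⟨s, by omega⟩, a.2) := Prod.ext (Fin.ext (by simp only; omega)) rfl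
      have e2 : b = (⟨s + 1, h⟩, b.2) := Prod.ext (Fin.ext (by simp only; omega)) rfl
      have h3 : le s h a.2 b.2 ∈ (P e).1.edges := by
        unfold le
        rwa [← e1, ← e2]
      have h4 := huniq e s h _ _ h2 h3
      rw [h4, ← hb2]
    · have := a.1.isLt
      omega
  let w : (Σ x : Node k m, Σ y : Node k m, Fin (H x y)) → ℕ → Node k m := fun e s =>
    if h : s + 1 < r then (f e s h).1 else e.2.1
  have hw1 : ∀ e s (h : s + 1 < r), w e s = (f e s h).1 := by
    intro e s h
    simp only [w, dif_pos h]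
  have hw2 : ∀ e s (h : s + 1 < r), w e (s + 1) = (f e s h).2 := by
    intro e s h
    by_cases h' : s + 1 + 1 < r
    · rw [hw1 e (s + 1) h', hglue e s h h']
    · simp only [w, dif_neg h']
      exact (hend e s h (by omega)).symm
  refine ⟨w, ?_, ?_, ?_, ?_⟩
  · intro e
    rw [hw1 e 0 (by omega)]
    exact hstart e
  · intro e
    simp only [w]
    rw [dif_neg (by omega)]
  · intro e s h
    rw [hw1 e s h, hw2 e s h]
    exact hf1 e s h
  · intro e e' hne s h
    rw [hw1 e s h, hw2 e s h, hw1 e' s h, hw2 e' s h]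
    rintro ⟨h1, h2⟩
    exact hne (hinj s h e e' (Prod.ext h1 h2))


/-! ### From words to edge-disjoint paths -/

lemma build {r : ℕ} (w : ℕ → Node k m) (hw : ∀ s, s + 1 < r → SEAdj k (m + 2) (w s) (w (s + 1)))
    (h0 : 0 < r) : ∀ j (hj : j < r), ∃ p : (stageGraph k (m + 2) r).Walk (⟨0, h0⟩, w 0) (⟨j, hj⟩, w j),
      p.IsPath ∧ (∀ v ∈ p.support, (v.1 : ℕ) ≤ j) ∧
      (∀ a ∈ p.edges, ∃ s, ∃ h : s + 1 < r, a = le s h (w s) (w (s + 1))) := by
  intro j
  induction j with
  | zero =>
    intro hj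
    refine ⟨SimpleGraph.Walk.nil, SimpleGraph.Walk.IsPath.nil, ?_, ?_⟩
    · intro v hv
      rw [SimpleGraph.Walk.support_nil, List.mem_singleton] at hv
      rw [hv]
    · intro a ha
      simp at ha
  | succ j ih =>
    intro hj
    obtain ⟨p, hp1, hp2, hp3⟩ := ih (by omega)
    have hadj : (stageGraph k (m + 2) r).Adj (⟨j, by omega⟩, w j) (⟨j + 1, hj⟩, w (j + 1)) :=
      Or.inl ⟨rfl, hw j hj⟩
    refine ⟨p.concat hadj, hp1.concat ?_ hadj, ?_, ?_⟩
    · intro h1
      have := hp2 _ h1
      simp only at this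
      omega
    · intro v hv
      rw [SimpleGraph.Walk.support_concat, List.mem_append, List.mem_singleton] at hv
      rcases hv with hv | hv
      · have := hp2 v hv; omega
      · rw [hv]
    · intro a ha
      rw [SimpleGraph.Walk.edges_concat, List.concat_eq_append, List.mem_append,
        List.mem_singleton] at ha
      rcases ha with ha | ha
      · exact hp3 a ha
      · exact ⟨j, hj, ha⟩


end Pool.Agent.W922.SX.Net
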