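import Pool.Agent.W922.SX.Net

/-! The multistage shuffle-exchange graph is rearrangeable if and only if every permutation of
the words factorises. -/

set_option autoImplicit false

open Equiv

namespace Pool.Agent.W922.SX.Net

open Pool.Agent.W922.SX
open Pool.Agent.Results.MP_ec5f85_co.ShuffleThree (SEAdj stageGraph IsMask Rearrangeable)

variable {k m : ℕ}

/-- the permutations reached after `t` steps -/
def zseq {r : ℕ} (π : Perm (Word k (m + 2)))
    (z : ∀ t, t + 1 < r → Perm (Word k (m + 2))) : ℕ → Perm (Word k (m + 2))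
  | 0 => 1
  | s + 1 => if h : s + 1 < r then z s h else π

theorem run_of_rearrangeable {r : ℕ} (hr : 2 ≤ r) (h : Rearrangeable k (m + 2) r) :
    Run k (m + 2) r = Set.univ := by
  classical
  rw [Set.eq_univ_iff_forall]
  intro π
  let H : Node k m → Node k m → ℕ :=
    fun x y => Fintype.card {u : Word k (m + 2) // R u = x ∧ L (π u) = y}
  have hH : IsMask k (m + 2) H := by
    constructor
    · intro x
      change ∑ y, Fintype.card {u : Word k (m + 2) // R u = x ∧ L (π u) = y} = k
      conv_rhs => rw [← card_R (m := m) x]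
      rw [← Fintype.card_sigma]
      apply Fintype.card_congr
      exact ⟨fun e => ⟨e.2.1, e.2.2.1⟩, fun u => ⟨L (π u.1), ⟨u.1, u.2, rfl⟩⟩,
        by rintro ⟨y, ⟨u, h1, rfl⟩⟩; rfl, fun u => rfl⟩
    · intro y
      change ∑ x, Fintype.card {u : Word k (m + 2) // R u = x ∧ L (π u) = y} = k
      have e1 : Fintype.card {u : Word k (m + 2) // L (π u) = y} = k := by
        rw [Fintype.card_congr (π.subtypeEquiv (fun u => Iff.rfl) :
          {u : Word k (m + 2) // L (π u) = y} ≃ {v : Word k (m + 2) // L v = y}), card_L]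
      conv_rhs => rw [← e1]
      rw [← Fintype.card_sigma]
      apply Fintype.card_congr
      exact ⟨fun e => ⟨e.2.1, e.2.2.2⟩, fun u => ⟨R u.1, ⟨u.1, rfl, u.2⟩⟩,
        by rintro ⟨x, ⟨u, rfl, h2⟩⟩; rfl, fun u => rfl⟩
  obtain ⟨P, hP⟩ := h H hH ⟨0, by omega⟩ ⟨r - 1, by omega⟩ rfl (by simp only; omega)
  obtain ⟨w, w0, w1, w2, w3⟩ := words hr hH rfl (by simp only; omega) P hP
  let φ : ∀ x y, Fin (H x y) ≃ {u : Word k (m + 2) // R u = x ∧ L (π u) = y} :=
    fun x y => (Fintype.equivFin _).symm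
  let e : Word k (m + 2) → Σ x : Node k m, Σ y : Node k m, Fin (H x y) :=
    fun u => ⟨R u, L (π u), (φ _ _).symm ⟨u, rfl, rfl⟩⟩
  let back : (Σ x : Node k m, Σ y : Node k m, Fin (H x y)) → Word k (m + 2) :=
    fun e => (φ e.1 e.2.1 e.2.2).1
  have hback : ∀ u, back (e u) = u := by
    intro u
    simp only [back, e, apply_symm_apply]
  have einj : Function.Injective e := Function.LeftInverse.injective hback
  have hmid : ∀ t, t + 1 < r → ∀ u, ∃ z : Word k (m + 2), L z = w (e u) t ∧
      R z = w (e u) (t + 1) := fun t ht u => exists_word _ _ (w2 _ t ht)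
  choose z hzL hzR using hmid
  have zinj : ∀ t (ht : t + 1 < r), Function.Injective (z t ht) := by
    intro t ht u v huv
    by_contra hne
    exact w3 (e u) (e v) (fun h => hne (einj h)) t ht
      ⟨by rw [← hzL t ht, ← hzL t ht, huv], by rw [← hzR t ht, ← hzR t ht, huv]⟩
  let zp : ∀ t, t + 1 < r → Perm (Word k (m + 2)) := fun t ht =>
    Equiv.ofBijective (z t ht) (Finite.injective_iff_bijective.mp (zinj t ht))
  have hz : ∀ t (ht : t + 1 < r) u, zseq π zp (t + 1) u = z t ht u := by
    intro t ht u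
    simp only [zseq, dif_pos ht]
    rfl
  have hzr : ∀ t, t + 1 = r → zseq π zp (t + 1) = π := by
    intro t ht
    simp only [zseq, dif_neg (show ¬ t + 1 < r by omega)]
  have key := of_windows (k := k) (n := m + 2) (m := r) (zseq π zp) rfl (by
    intro t ht x
    apply L_eq_R.mp
    rcases Nat.eq_zero_or_pos t with h0 | h0
    · subst h0
      rw [hz 0 (by omega), hzL 0 (by omega), w0]
      rfl
    · obtain ⟨s, rfl⟩ : ∃ s, t = s + 1 := ⟨t - 1, by omega⟩
      rw [hz s (by omega) x, hzR s (by omega) x]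
      by_cases h2 : s + 1 + 1 < r
      · rw [hz (s + 1) h2, hzL (s + 1) h2]
      · rw [hzr (s + 1) (by omega)]
        have h3 := w1 (e x)
        rw [show r - 1 = s + 1 by omega] at h3
        rw [h3])
  obtain ⟨s, rfl⟩ : ∃ s, r = s + 1 := ⟨r - 1, by omega⟩
  rw [hzr s rfl] at key
  exact key

theorem rearrangeable_of_run {r : ℕ} (hr : 2 ≤ r) (h : Run k (m + 2) r = Set.univ) :
    Rearrangeable k (m + 2) r := by
  classical
  have h0r : 0 < r := by omega
  have h1r : r - 1 < r := by omega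
  intro H hH first last hfirst hlast
  let E : Type := Σ x : Node k m, Σ y : Node k m, Fin (H x y)
  have c1 : ∀ x : Node k m, Fintype.card {e : E // e.1 = x} = k := by
    intro x
    rw [Fintype.card_congr (Equiv.sigmaSubtype (β := fun x => Σ y : Node k m, Fin (H x y)) x)]
    simp only [Fintype.card_sigma, Fintype.card_fin]
    exact hH.1 x
  have c2 : ∀ y : Node k m, Fintype.card {e : E // e.2.1 = y} = k := by
    intro y
    have e1 : {e : E // e.2.1 = y} ≃ Σ x : Node k m, Fin (H x y) :=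
      ⟨fun e => ⟨e.1.1, Fin.cast (by rw [e.2]) e.1.2.2⟩, fun e => ⟨⟨e.1, y, e.2⟩, rfl⟩,
        by rintro ⟨⟨x, y', i⟩, rfl⟩; rfl, fun e => rfl⟩
    rw [Fintype.card_congr e1]
    simp only [Fintype.card_sigma, Fintype.card_fin]
    exact hH.2 y
  let α : E ≃ Word k (m + 2) := Equiv.ofFiberEquiv (f := fun e : E => e.1) (g := R)
    (fun c => Fintype.equivOfCardEq (by rw [c1, card_R]))
  let β : E ≃ Word k (m + 2) := Equiv.ofFiberEquiv (f := fun e : E => e.2.1) (g := L)
    (fun c => Fintype.equivOfCardEq (by rw [c2, card_L]))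
  have hα : ∀ e, R (α e) = e.1 := fun e => Equiv.ofFiberEquiv_map _ e
  have hβ : ∀ e, L (β e) = e.2.1 := fun e => Equiv.ofFiberEquiv_map _ e
  have hπ : α.symm.trans β ∈ Run k (m + 2) r := by rw [h]; trivial
  obtain ⟨g, hg, hgr⟩ := hπ
  have hstep : ∀ s x, L (run g (s + 1) x) = R (run g s x) := by
    intro s x
    apply L_eq_R.mpr
    intro i hi
    exact run_step g hg s x i hi
  let w : E → ℕ → Node k m := fun e s => L (run g (s + 1) (α e))
  have hw0 : ∀ e, w e 0 = e.1 := by
    intro e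
    change L (run g (0 + 1) (α e)) = e.1
    rw [hstep]
    exact hα e
  have hw1 : ∀ e, w e (r - 1) = e.2.1 := by
    intro e
    change L (run g (r - 1 + 1) (α e)) = e.2.1
    rw [show r - 1 + 1 = r by omega, hgr, Equiv.trans_apply, symm_apply_apply, hβ]
  have hwR : ∀ e s, w e (s + 1) = R (run g (s + 1) (α e)) := fun e s => hstep (s + 1) (α e)
  have hadj : ∀ e s, SEAdj k (m + 2) (w e s) (w e (s + 1)) := by
    intro e s
    rw [hwR]
    exact adj_LR _
  have hdist : ∀ e e' s, w e s = w e' s → w e (s + 1) = w e' (s + 1) → e = e' := by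
    intro e e' s h1 h2
    rw [hwR, hwR] at h2
    exact α.injective ((run g (s + 1)).injective (LR_inj h1 h2))
  have hb := fun e => build (w e) (fun s _ => hadj e s) h0r (r - 1) h1r
  choose p hp1 _ hp3 using hb
  obtain rfl : first = ⟨0, h0r⟩ := Fin.ext hfirst
  obtain rfl : last = ⟨r - 1, h1r⟩ := Fin.ext (by simp only; omega)
  refine ⟨fun e => ⟨(p e).copy (by rw [hw0]) (by rw [hw1]), ?_⟩, ?_⟩
  · rw [SimpleGraph.Walk.isPath_copy]
    exact hp1 e
  · intro e e' hne a ha ha'
    simp only [SimpleGraph.Walk.edges_copy] at ha ha'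
    obtain ⟨s, hs, h1⟩ := hp3 e a ha
    obtain ⟨s', hs', h2⟩ := hp3 e' a ha'
    obtain ⟨h3, h4, h5⟩ := le_inj (h1.symm.trans h2)
    subst h3
    exact hne (hdist e e' s h4 h5)

theorem rearrangeable_bound {n r : ℕ} (hk : 3 ≤ k) (hn : 3 ≤ n) (hr : 2 ≤ r)
    (h : Rearrangeable k n r) : 2 * n ≤ r := by
  obtain ⟨m, rfl⟩ : ∃ m, n = m + 2 := ⟨n - 2, by omega⟩
  exact Run_bound hk hn (run_of_rearrangeable hr h)

theorem rearrangeable_three (hk : 0 < k) {r : ℕ} (hr : 6 ≤ r) : Rearrangeable k 3 r :=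
  rearrangeable_of_run (m := 1) (by omega) (Run_mono hr (Run_six hk))

end Pool.Agent.W922.SX.Net
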