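import Pool.Agent.W922.SX.Upper
import Pool.Agent.Results.MP_ec5f85_co.ShuffleThree

/-! Words as edges of the shuffle-exchange graph: base `k` numbers. -/

set_option autoImplicit false

open Equiv

namespace Pool.Agent.W922.SX.Net

open Pool.Agent.W922.SX
open Pool.Agent.Results.MP_ec5f85_co.ShuffleThree (SEAdj stageGraph IsMask Rearrangeable)

/-- the number with the base `k` digits `f 0, f 1, …` (most significant first) -/
def val {k : ℕ} : (m : ℕ) → (Fin m → Fin k) → ℕ
  | 0, _ => 0
  | m + 1, f => (f 0 : ℕ) * k ^ m + val m (fun i => f i.succ)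

theorem val_lt {k : ℕ} : ∀ (m : ℕ) (f : Fin m → Fin k), val m f < k ^ m
  | 0, _ => by simp [val]
  | m + 1, f => by
    have h := val_lt m (fun i => f i.succ)
    have h2 : (f 0 : ℕ) + 1 ≤ k := (f 0).isLt
    calc val (m + 1) f = (f 0 : ℕ) * k ^ m + val m (fun i => f i.succ) := rfl
      _ < (f 0 : ℕ) * k ^ m + k ^ m := by omega
      _ = ((f 0 : ℕ) + 1) * k ^ m := by ring
      _ ≤ k * k ^ m := Nat.mul_le_mul_right _ h2
      _ = k ^ (m + 1) := by rw [pow_succ]; ring

theorem digit_unique {K a b c d : ℕ} (hb : b < K) (hd : d < K) (h : a * K + b = c * K + d) :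
    a = c ∧ b = d := by
  have hK : 0 < K := by omega
  have e1 : (a * K + b) / K = a := by
    rw [Nat.add_comm, Nat.add_mul_div_right _ _ hK, Nat.div_eq_of_lt hb, zero_add]
  have e2 : (c * K + d) / K = c := by
    rw [Nat.add_comm, Nat.add_mul_div_right _ _ hK, Nat.div_eq_of_lt hd, zero_add]
  have e3 : a = c := by rw [← e1, h, e2]
  subst e3
  exact ⟨rfl, by omega⟩

theorem val_inj {k : ℕ} : ∀ (m : ℕ) (f g : Fin m → Fin k), val m f = val m g → f = g
  | 0, f, g, _ => funext fun i => i.elim0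
  | m + 1, f, g, h => by
    have h' : (f 0 : ℕ) * k ^ m + val m (fun i => f i.succ) =
      (g 0 : ℕ) * k ^ m + val m (fun i => g i.succ) := h
    obtain ⟨h1, h2⟩ := digit_unique (val_lt m _) (val_lt m _) h'
    have h3 := val_inj m _ _ h2
    funext i
    refine Fin.cases ?_ (fun j => ?_) i
    · exact Fin.ext h1
    · exact congrFun h3 j

theorem val_castSucc {k : ℕ} : ∀ (m : ℕ) (f : Fin (m + 1) → Fin k),
    val (m + 1) f = k * val m (fun i => f i.castSucc) + f (Fin.last m)
  | 0, f => by simp [val]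
  | m + 1, f => by
    have ih := val_castSucc m (fun i => f i.succ)
    have e1 : val (m + 2) f = (f 0 : ℕ) * k ^ (m + 1) + val (m + 1) (fun i => f i.succ) := rfl
    have e2 : val (m + 1) (fun i => f i.castSucc) =
      (f 0 : ℕ) * k ^ m + val m (fun i => f i.succ.castSucc) := rfl
    rw [e1, ih, e2]
    have e3 : (fun i : Fin m => f i.castSucc.succ) = fun i => f i.succ.castSucc := rfl
    have e4 : f (Fin.last m).succ = f (Fin.last (m + 1)) := rfl
    rw [e3, e4, pow_succ]
    ring

theorem val_surj {k : ℕ} (m j : ℕ) (hj : j < k ^ m) : ∃ f : Fin m → Fin k, val m f = j := by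
  have hb : Function.Bijective (fun f : Fin m → Fin k => (⟨val m f, val_lt m f⟩ : Fin (k ^ m))) := by
    rw [Fintype.bijective_iff_injective_and_card]
    refine ⟨fun f g h => val_inj m f g (congrArg Fin.val h), ?_⟩
    simp
  obtain ⟨f, hf⟩ := hb.2 ⟨j, hj⟩
  exact ⟨f, congrArg Fin.val hf⟩

theorem seadj_iff {k m : ℕ} (i j : Fin (k ^ (m + 2 - 1))) :
    SEAdj k (m + 2) i j ↔ (j : ℕ) / k = (i : ℕ) % k ^ m := by
  have hi : (i : ℕ) < k ^ (m + 1) := i.isLt
  have hj : (j : ℕ) < k ^ (m + 1) := j.isLt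
  have hk : 0 < k := by
    rcases Nat.eq_zero_or_pos k with h | h
    · subst h; simp at hi
    · exact h
  have hM : 0 < k ^ m := pow_pos hk m
  have hN : k ^ (m + 1) = k * k ^ m := by rw [pow_succ]; ring
  have hjM : (j : ℕ) / k < k ^ m := by
    rw [Nat.div_lt_iff_lt_mul hk]; rw [hN] at hj; rw [mul_comm]; exact hj
  change ((j : ℤ) - (k : ℤ) * (i : ℤ)) % ((k ^ (m + 1) : ℕ) : ℤ) < (k : ℤ) ↔ _
  rw [hN]
  set M := k ^ m with hMdef
  have hdm := Nat.div_add_mod (j : ℕ) k
  have hs : (j : ℕ) % k < k := Nat.mod_lt _ hk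
  set a := (j : ℕ) / k with ha
  set s := (j : ℕ) % k with hsdef
  have hjz : ((j : ℕ) : ℤ) = k * a + s := by rw [← hdm]; push_cast; ring
  have him := Nat.div_add_mod (i : ℕ) M
  set b := (i : ℕ) % M with hb
  set t := (i : ℕ) / M with ht
  have hiz : ((i : ℕ) : ℤ) = M * t + b := by rw [← him]; push_cast; ring
  have hbM : b < M := Nat.mod_lt _ hM
  rw [hjz, hiz]
  constructor
  · intro h
    have h0 : 0 ≤ ((k : ℤ) * a + s - k * (M * t + b)) % ((k * M : ℕ) : ℤ) :=
      Int.emod_nonneg _ (by positivity)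
    have h1 := Int.emod_add_mul_ediv ((k : ℤ) * a + s - k * (M * t + b)) ((k * M : ℕ) : ℤ)
    set z := ((k : ℤ) * a + s - k * (M * t + b)) % ((k * M : ℕ) : ℤ) with hz
    set q := ((k : ℤ) * a + s - k * (M * t + b)) / ((k * M : ℕ) : ℤ) with hq
    have h2 : (k : ℤ) * (a - M * t - b - M * q) = z - s := by
      push_cast at h1
      linear_combination (-1 : ℤ) * h1
    have h3 : (a : ℤ) - M * t - b - M * q = 0 := by
      by_contra hne
      have h4 : (1 : ℤ) ≤ |(a : ℤ) - M * t - b - M * q| := Int.one_le_abs hne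
      have h5 : |(k : ℤ) * (a - M * t - b - M * q)| = k * |(a : ℤ) - M * t - b - M * q| := by
        rw [abs_mul, abs_of_nonneg (by positivity)]
      have h6 : (k : ℤ) ≤ |z - s| := by
        rw [← h2, h5]
        nlinarith [show (0 : ℤ) < k by exact_mod_cast hk]
      have h7 : |z - (s : ℤ)| < k := by
        rw [abs_lt]
        constructor
        · have : (s : ℤ) < k := by exact_mod_cast hs
          omega
        · omega
      omega
    have h8 : (a : ℤ) = b + M * (t + q) := by linear_combination h3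
    have h9 : ((a : ℤ)) % (M : ℤ) = (b : ℤ) % (M : ℤ) := by
      rw [h8, Int.add_mul_emod_self_left]
    rw [Int.emod_eq_of_lt (by positivity) (by exact_mod_cast hjM),
      Int.emod_eq_of_lt (by positivity) (by exact_mod_cast hbM)] at h9
    exact_mod_cast h9
  · intro h
    rw [h]
    have e : (k : ℤ) * b + s - k * (M * t + b) = s + ((k * M : ℕ) : ℤ) * (-(t : ℤ)) := by
      push_cast; ring
    rw [e, Int.add_mul_emod_self_left, Int.emod_eq_of_lt (by positivity)]
    · exact_mod_cast hs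
    · have : s < k * M := lt_of_lt_of_le hs (Nat.le_mul_of_pos_right k hM)
      exact_mod_cast this

variable {k m : ℕ}

/-- the node of the first `n - 1` letters -/
def L (x : Word k (m + 2)) : Fin (k ^ (m + 2 - 1)) := ⟨val (m + 1) (fun i => x i.castSucc), val_lt _ _⟩

/-- the node of the last `n - 1` letters -/
def R (x : Word k (m + 2)) : Fin (k ^ (m + 2 - 1)) := ⟨val (m + 1) (fun i => x i.succ), val_lt _ _⟩

theorem L_val (x : Word k (m + 2)) : ((L x : Fin _) : ℕ) = val (m + 1) (fun i => x i.castSucc) :=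
  rfl

theorem R_val (x : Word k (m + 2)) : ((R x : Fin _) : ℕ) = val (m + 1) (fun i => x i.succ) := rfl

theorem L_eq_R {x y : Word k (m + 2)} :
    L y = R x ↔ ∀ (i : ℕ) (hi : i + 1 < m + 2), y ⟨i, Nat.lt_of_succ_lt hi⟩ = x ⟨i + 1, hi⟩ := by
  constructor
  · intro h i hi
    have h0 : val (m + 1) (fun i => y i.castSucc) = val (m + 1) (fun i => x i.succ) := by
      rw [← L_val, ← R_val, h]
    have h1 := val_inj _ _ _ h0
    exact congrFun h1 ⟨i, by omega⟩
  · intro h
    apply Fin.ext
    rw [L_val, R_val]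
    congr 1
    funext i
    exact h i (by have := i.isLt; omega)

theorem LR_inj {x y : Word k (m + 2)} (h1 : L x = L y) (h2 : R x = R y) : x = y := by
  have h0 : val (m + 1) (fun i => x i.castSucc) = val (m + 1) (fun i => y i.castSucc) := by
    rw [← L_val, ← L_val, h1]
  have h0' : val (m + 1) (fun i => x i.succ) = val (m + 1) (fun i => y i.succ) := by
    rw [← R_val, ← R_val, h2]
  have e1 := val_inj _ _ _ h0
  have e2 := val_inj _ _ _ h0'
  funext i
  refine Fin.cases ?_ (fun j => ?_) i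
  · exact congrFun e1 0
  · exact congrFun e2 j

theorem adj_LR (x : Word k (m + 2)) : SEAdj k (m + 2) (L x) (R x) := by
  rw [seadj_iff]
  have hk : 0 < k := (x 0).pos
  have e1 : ((R x : Fin _) : ℕ) = k * val m (fun i => x i.castSucc.succ) + x (Fin.last (m + 1)) :=
    val_castSucc m (fun i => x i.succ)
  have e2 : ((L x : Fin _) : ℕ) = (x 0 : ℕ) * k ^ m + val m (fun i => x i.succ.castSucc) := rfl
  have e3 : (fun i : Fin m => x i.castSucc.succ) = fun i => x i.succ.castSucc := rfl
  rw [e1, e2, e3, Nat.mul_add_mod', Nat.mod_eq_of_lt (val_lt _ _), Nat.mul_add_div hk,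
    Nat.div_eq_of_lt (x _).isLt, add_zero]

theorem exists_word (i j : Fin (k ^ (m + 2 - 1))) (h : SEAdj k (m + 2) i j) :
    ∃ x : Word k (m + 2), L x = i ∧ R x = j := by
  rw [seadj_iff] at h
  obtain ⟨a, ha⟩ := val_surj (m + 1) (i : ℕ) i.isLt
  obtain ⟨b, hb⟩ := val_surj (m + 1) (j : ℕ) j.isLt
  have hk : 0 < k := (a 0).pos
  have e1 : (j : ℕ) = k * val m (fun i => b i.castSucc) + b (Fin.last m) := by
    rw [← hb]; exact val_castSucc m b
  have e2 : (i : ℕ) = (a 0 : ℕ) * k ^ m + val m (fun i => a i.succ) := by rw [← ha]; rfl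
  rw [e1, e2, Nat.mul_add_mod', Nat.mod_eq_of_lt (val_lt _ _), Nat.mul_add_div hk,
    Nat.div_eq_of_lt (b _).isLt, add_zero] at h
  have e3 := val_inj _ _ _ h
  have hR : (fun p : Fin (m + 1) => (Fin.cons (a 0) b : Fin (m + 2) → Fin k) p.succ) = b := by
    funext p; simp
  have hL : (fun p : Fin (m + 1) => (Fin.cons (a 0) b : Fin (m + 2) → Fin k) p.castSucc) = a := by
    funext p
    refine Fin.cases ?_ (fun q => ?_) p
    · rfl
    · exact congrFun e3 q
  refine ⟨(Fin.cons (a 0) b : Fin (m + 2) → Fin k), ?_, ?_⟩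
  · apply Fin.ext
    rw [L_val, hL, ha]
  · apply Fin.ext
    rw [R_val, hR, hb]

theorem card_R (y : Fin (k ^ (m + 2 - 1))) :
    Fintype.card {x : Word k (m + 2) // R x = y} = k := by
  classical
  obtain ⟨b, hb⟩ := val_surj (m + 1) (y : ℕ) y.isLt
  have key : Fintype.card {x : Word k (m + 2) // R x = y} = Fintype.card (Fin k) := by
    apply Fintype.card_congr
    refine ⟨fun x => x.1 0, fun c => ⟨(Fin.cons c b : Fin (m + 2) → Fin k), ?_⟩, ?_, ?_⟩
    · apply Fin.ext
      rw [R_val, ← hb]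
      rfl
    · rintro ⟨x, hx⟩
      apply Subtype.ext
      have h1 : val (m + 1) (fun i => x i.succ) = val (m + 1) b := by
        rw [← R_val, hx, hb]
      have h2 := val_inj _ _ _ h1
      funext i
      refine Fin.cases ?_ (fun j => ?_) i
      · rfl
      · exact (congrFun h2 j).symm
    · intro c
      rfl
  rw [key, Fintype.card_fin]

theorem card_L (y : Fin (k ^ (m + 2 - 1))) :
    Fintype.card {x : Word k (m + 2) // L x = y} = k := by
  classical
  obtain ⟨b, hb⟩ := val_surj (m + 1) (y : ℕ) y.isLt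
  have key : Fintype.card {x : Word k (m + 2) // L x = y} = Fintype.card (Fin k) := by
    apply Fintype.card_congr
    refine ⟨fun x => x.1 (Fin.last (m + 1)),
      fun c => ⟨(Fin.snoc (α := fun _ => Fin k) b c : Fin (m + 2) → Fin k), ?_⟩, ?_, ?_⟩
    · apply Fin.ext
      rw [L_val, ← hb]
      congr 1
      funext i
      exact Fin.snoc_castSucc (α := fun _ => Fin k) c b i
    · rintro ⟨x, hx⟩
      apply Subtype.ext
      have h1 : val (m + 1) (fun i => x i.castSucc) = val (m + 1) b := by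
        rw [← L_val, hx, hb]
      have h2 := val_inj _ _ _ h1
      funext i
      refine Fin.lastCases ?_ (fun j => ?_) i
      · exact Fin.snoc_last (α := fun _ => Fin k) _ _
      · exact (Fin.snoc_castSucc (α := fun _ => Fin k) _ _ j).trans (congrFun h2 j).symm
    · intro c
      exact Fin.snoc_last (α := fun _ => Fin k) _ _
  rw [key, Fintype.card_fin]

theorem card_level [DecidablePred fun ij : Fin (k ^ (m + 2 - 1)) × Fin (k ^ (m + 2 - 1)) =>
      SEAdj k (m + 2) ij.1 ij.2] :
    Fintype.card {ij : Fin (k ^ (m + 2 - 1)) × Fin (k ^ (m + 2 - 1)) //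
      SEAdj k (m + 2) ij.1 ij.2} = k ^ (m + 2) := by
  have h : Fintype.card (Word k (m + 2)) = k ^ (m + 2) := by simp
  rw [← h]
  symm
  apply Fintype.card_congr
  refine Equiv.ofBijective (fun x => ⟨(L x, R x), adj_LR x⟩) ⟨?_, ?_⟩
  · intro x y hxy
    have h1 := congrArg Subtype.val hxy
    exact LR_inj (congrArg Prod.fst h1) (congrArg Prod.snd h1)
  · rintro ⟨⟨i, j⟩, hij⟩
    obtain ⟨x, h1, h2⟩ := exists_word i j hij
    exact ⟨x, Subtype.ext (Prod.ext h1 h2)⟩

end Pool.Agent.W922.SX.Net
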