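import Pool.Agent.W922.SX.Main

/-! The upper bound: every permutation of the words of length 3 is a product of six factors. -/

set_option autoImplicit false

open Equiv Finset

namespace Pool.Agent.W922.SX

/-! ### Konig's edge colouring theorem for regular bipartite multigraphs -/

section konig

variable {W A B : Type} [Fintype W] [Fintype A] [Fintype B] [DecidableEq W] [DecidableEq A]
  [DecidableEq B]

theorem matching (p : W → A) (q : W → B) (k : ℕ) (E : Finset W)
    (hp : ∀ a, (E.filter (fun w => p w = a)).card = k + 1)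
    (hq : ∀ b, (E.filter (fun w => q w = b)).card = k + 1) :
    ∃ f : A → W, (∀ a, f a ∈ E) ∧ (∀ a, p (f a) = a) ∧ Function.Bijective (fun a => q (f a)) := by
  have hcA : ∀ S : Finset A, (E.filter (fun w => p w ∈ S)).card = S.card * (k + 1) := by
    intro S
    have h1 : ∀ w ∈ E.filter (fun w => p w ∈ S), p w ∈ S := fun w hw => (mem_filter.1 hw).2
    rw [card_eq_sum_card_fiberwise h1, sum_const_nat (m := k + 1)]
    intro a ha
    rw [← hp a, filter_filter]
    congr 1
    apply filter_congr
    intro w _
    constructor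
    · exact fun h => h.2
    · exact fun h => ⟨h ▸ ha, h⟩
  have hcB : ∀ S : Finset B, (E.filter (fun w => q w ∈ S)).card = S.card * (k + 1) := by
    intro S
    have h1 : ∀ w ∈ E.filter (fun w => q w ∈ S), q w ∈ S := fun w hw => (mem_filter.1 hw).2
    rw [card_eq_sum_card_fiberwise h1, sum_const_nat (m := k + 1)]
    intro a ha
    rw [← hq a, filter_filter]
    congr 1
    apply filter_congr
    intro w _
    constructor
    · exact fun h => h.2
    · exact fun h => ⟨h ▸ ha, h⟩
  have hall : ∀ S : Finset A, S.card ≤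
      (S.biUnion (fun a => (E.filter (fun w => p w = a)).image q)).card := by
    intro S
    have h1 : E.filter (fun w => p w ∈ S) ⊆
        E.filter (fun w => q w ∈ S.biUnion (fun a => (E.filter (fun w => p w = a)).image q)) := by
      intro w hw
      rw [mem_filter] at hw ⊢
      refine ⟨hw.1, ?_⟩
      rw [mem_biUnion]
      exact ⟨p w, hw.2, mem_image_of_mem q (mem_filter.2 ⟨hw.1, rfl⟩)⟩
    have h2 := card_le_card h1
    rw [hcA, hcB] at h2
    exact Nat.le_of_mul_le_mul_right h2 (Nat.succ_pos k)
  obtain ⟨g, hg, hgt⟩ := (Finset.all_card_le_biUnion_card_iff_exists_injective _).1 hall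
  have hgt' : ∀ a, ∃ w, w ∈ E ∧ p w = a ∧ q w = g a := by
    intro a
    obtain ⟨w, hw, hw'⟩ := mem_image.1 (hgt a)
    exact ⟨w, (mem_filter.1 hw).1, (mem_filter.1 hw).2, hw'⟩
  choose f f1 f2 f3 using hgt'
  refine ⟨f, f1, f2, ?_⟩
  have hcard : Fintype.card A = Fintype.card B := by
    have a1 := hcA univ
    have b1 := hcB univ
    simp only [mem_univ, filter_true, card_univ] at a1 b1
    rw [a1] at b1
    exact Nat.eq_of_mul_eq_mul_right (Nat.succ_pos k) b1
  have hf : (fun a => q (f a)) = g := funext f3
  rw [hf]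
  exact (Fintype.bijective_iff_injective_and_card g).2 ⟨hg, hcard⟩

theorem konigE (p : W → A) (q : W → B) (k : ℕ) : ∀ (E : Finset W),
    (∀ a, (E.filter (fun w => p w = a)).card = k) →
    (∀ b, (E.filter (fun w => q w = b)).card = k) →
    ∃ c : W → ℕ, (∀ w ∈ E, c w < k) ∧
      (∀ w ∈ E, ∀ w' ∈ E, p w = p w' → c w = c w' → w = w') ∧
      (∀ w ∈ E, ∀ w' ∈ E, q w = q w' → c w = c w' → w = w') := by
  induction k with
  | zero =>
    intro E hp _
    have hE : ∀ w, w ∉ E := by
      intro w hw
      have := hp (p w)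
      rw [card_eq_zero] at this
      have h2 : w ∈ E.filter (fun w' => p w' = p w) := mem_filter.2 ⟨hw, rfl⟩
      rw [this] at h2
      exact notMem_empty _ h2
    exact ⟨fun _ => 0, fun w hw => absurd hw (hE w), fun w hw => absurd hw (hE w),
      fun w hw => absurd hw (hE w)⟩
  | succ k ih =>
    intro E hp hq
    obtain ⟨f, f1, f2, f3⟩ := matching p q k E hp hq
    have fp : ∀ a w, w = f a → p w = a := fun a w h => by rw [h, f2]
    have memf : ∀ w, w ∈ univ.image f ↔ w = f (p w) := by
      intro w
      rw [mem_image]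
      constructor
      · rintro ⟨a, _, rfl⟩
        rw [f2]
      · intro h
        exact ⟨p w, mem_univ _, h.symm⟩
    obtain ⟨c, c1, c2, c3⟩ := ih (E \ univ.image f) (by
      intro a
      have : (E \ univ.image f).filter (fun w => p w = a) =
          (E.filter (fun w => p w = a)).erase (f a) := by
        ext w
        simp only [mem_filter, mem_sdiff, mem_erase, memf]
        constructor
        · rintro ⟨⟨h1, h2⟩, h3⟩
          exact ⟨fun h => h2 (by rw [h3]; exact h), h1, h3⟩
        · rintro ⟨h1, h2, h3⟩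
          exact ⟨⟨h2, fun h => h1 (by rw [h3] at h; exact h)⟩, h3⟩
      rw [this, card_erase_of_mem (mem_filter.2 ⟨f1 a, f2 a⟩), hp a]
      rfl) (by
      intro b
      obtain ⟨a, ha⟩ := f3.2 b
      have : (E \ univ.image f).filter (fun w => q w = b) =
          (E.filter (fun w => q w = b)).erase (f a) := by
        ext w
        simp only [mem_filter, mem_sdiff, mem_erase, memf]
        constructor
        · rintro ⟨⟨h1, h2⟩, h3⟩
          exact ⟨fun h => h2 (by rw [fp a w h]; exact h), h1, h3⟩
        · rintro ⟨h1, h2, h3⟩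
          refine ⟨⟨h2, fun h => h1 ?_⟩, h3⟩
          have h4 : q (f (p w)) = q (f a) := by
            rw [← h, h3]
            exact ha.symm
          have h5 : p w = a := f3.1 h4
          rw [h5] at h
          exact h
      rw [this, card_erase_of_mem (mem_filter.2 ⟨f1 a, ha⟩), hq b]
      rfl)
    refine ⟨fun w => if w = f (p w) then k else c w, ?_, ?_, ?_⟩
    · intro w hw
      by_cases h : w = f (p w)
      · simp only [if_pos h]
        omega
      · simp only [if_neg h]
        have := c1 w (mem_sdiff.2 ⟨hw, fun h' => h ((memf w).1 h')⟩)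
        omega
    · intro w hw w' hw' hpp hcc
      by_cases h : w = f (p w)
      · by_cases h' : w' = f (p w')
        · rw [h, h', hpp]
        · simp only [if_pos h, if_neg h'] at hcc
          have := c1 w' (mem_sdiff.2 ⟨hw', fun h'' => h' ((memf w').1 h'')⟩)
          omega
      · by_cases h' : w' = f (p w')
        · simp only [if_neg h, if_pos h'] at hcc
          have := c1 w (mem_sdiff.2 ⟨hw, fun h'' => h ((memf w).1 h'')⟩)
          omega
        · simp only [if_neg h, if_neg h'] at hcc
          exact c2 w (mem_sdiff.2 ⟨hw, fun h'' => h ((memf w).1 h'')⟩) w'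
            (mem_sdiff.2 ⟨hw', fun h'' => h' ((memf w').1 h'')⟩) hpp hcc
    · intro w hw w' hw' hqq hcc
      by_cases h : w = f (p w)
      · by_cases h' : w' = f (p w')
        · have h4 : q (f (p w)) = q (f (p w')) := by rw [← h, ← h', hqq]
          have h5 : p w = p w' := f3.1 h4
          rw [h, h', h5]
        · simp only [if_pos h, if_neg h'] at hcc
          have := c1 w' (mem_sdiff.2 ⟨hw', fun h'' => h' ((memf w').1 h'')⟩)
          omega
      · by_cases h' : w' = f (p w')
        · simp only [if_neg h, if_pos h'] at hcc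
          have := c1 w (mem_sdiff.2 ⟨hw, fun h'' => h ((memf w).1 h'')⟩)
          omega
        · simp only [if_neg h, if_neg h'] at hcc
          exact c3 w (mem_sdiff.2 ⟨hw, fun h'' => h ((memf w).1 h'')⟩) w'
            (mem_sdiff.2 ⟨hw', fun h'' => h' ((memf w').1 h'')⟩) hqq hcc

/-- Konig's theorem -/
theorem konig (p : W → A) (q : W → B) (k : ℕ) (E : Finset W)
    (hp : ∀ a, (E.filter (fun w => p w = a)).card = k)
    (hq : ∀ b, (E.filter (fun w => q w = b)).card = k) (hk : 0 < k) :
    ∃ c : W → Fin k,
      (∀ w ∈ E, ∀ w' ∈ E, p w = p w' → c w = c w' → w = w') ∧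
      (∀ w ∈ E, ∀ w' ∈ E, q w = q w' → c w = c w' → w = w') := by
  obtain ⟨c, c1, c2, c3⟩ := konigE p q k E hp hq
  refine ⟨fun w => if h : c w < k then ⟨c w, h⟩ else ⟨0, hk⟩, ?_, ?_⟩
  · intro w hw w' hw' h1 h2
    simp only [dif_pos (c1 w hw), dif_pos (c1 w' hw'), Fin.mk.injEq] at h2
    exact c2 w hw w' hw' h1 h2
  · intro w hw w' hw' h1 h2
    simp only [dif_pos (c1 w hw), dif_pos (c1 w' hw'), Fin.mk.injEq] at h2
    exact c3 w hw w' hw' h1 h2

end konig

/-! ### From windows to factorisations -/

theorem of_windows {k n m : ℕ} (w : ℕ → Perm (Word k n)) (w0 : w 0 = 1)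
    (hw : ∀ t < m, ∀ (x : Word k n) (i : ℕ) (hi : i + 1 < n),
      w (t + 1) x ⟨i, Nat.lt_of_succ_lt hi⟩ = w t x ⟨i + 1, hi⟩) : w m ∈ Run k n m := by
  refine ⟨fun t => if t < m then w (t + 1) * (w t)⁻¹ * (shuffle k n)⁻¹ else 1, ?_, ?_⟩
  · intro t
    by_cases ht : t < m
    · simp only [if_pos ht]
      intro u ⟨i, hi⟩ hin
      obtain ⟨x, rfl⟩ : ∃ x, shuffle k n (w t x) = u :=
        ⟨(w t)⁻¹ ((shuffle k n)⁻¹ u), by simp⟩
      have e1 : (w (t + 1) * (w t)⁻¹ * (shuffle k n)⁻¹) (shuffle k n (w t x)) = w (t + 1) x := by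
        simp
      rw [e1, hw t ht x i hin]
      exact (shuffle_lt (w t x) i hin).symm
    · simp only [if_neg ht]
      exact one_mem k n
  · have key : ∀ t ≤ m, run (fun t => if t < m then w (t + 1) * (w t)⁻¹ * (shuffle k n)⁻¹ else 1) t
        = w t := by
      intro t
      induction t with
      | zero => intro _; exact w0.symm
      | succ t ih =>
        intro ht
        change (if t < m then w (t + 1) * (w t)⁻¹ * (shuffle k n)⁻¹ else 1) * shuffle k n *
          run _ t = _
        rw [ih (by omega), if_pos (by omega)]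
        simp
    exact key m le_rfl

/-! ### Words of length three -/

section three

variable {k : ℕ}

theorem fib (Φ : Word k 3 → Fin k × Fin k × Fin k) (hΦ : Function.Injective Φ) (a b : Fin k) :
    (univ.filter (fun x => (Φ x).1 = a ∧ (Φ x).2.1 = b)).card = k := by
  have hb : Function.Bijective Φ := (Fintype.bijective_iff_injective_and_card Φ).2
    ⟨hΦ, by simp; ring⟩
  have h1 : (univ : Finset (Fin k)).card =
      (univ.filter (fun x => (Φ x).1 = a ∧ (Φ x).2.1 = b)).card := by
    apply card_bij (fun t _ => (Equiv.ofBijective Φ hb).symm (a, b, t))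
    · intro t _
      have : Φ ((Equiv.ofBijective Φ hb).symm (a, b, t)) = (a, b, t) :=
        (Equiv.ofBijective Φ hb).apply_symm_apply _
      rw [mem_filter, this]
      exact ⟨mem_univ _, rfl, rfl⟩
    · intro t _ t' _ h
      have := (Equiv.ofBijective Φ hb).symm.injective h
      simpa using this
    · intro x hx
      rw [mem_filter] at hx
      refine ⟨(Φ x).2.2, mem_univ _, ?_⟩
      rw [Equiv.symm_apply_eq]
      change (a, b, (Φ x).2.2) = Φ x
      rw [← hx.2.1, ← hx.2.2]
  rw [← h1]
  simp

theorem Run_six (hk : 0 < k) : Run k 3 6 = Set.univ := by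
  have : NeZero k := ⟨hk.ne'⟩
  rw [Set.eq_univ_iff_forall]
  intro y
  have ext3 : ∀ x x' : Word k 3, x 0 = x' 0 → x 1 = x' 1 → x 2 = x' 2 → x = x' := by
    intro x x' h0 h1 h2
    funext i
    fin_cases i
    · exact h0
    · exact h1
    · exact h2
  -- first colouring
  obtain ⟨z, z1, z2⟩ := konig (fun x : Word k 3 => (x 1, x 2)) (fun x => (y x 0, y x 1)) k univ
    (by
      rintro ⟨a, b⟩
      refine (congrArg card ?_).trans (fib (fun x : Word k 3 => (x 1, x 2, x 0)) (fun x x' h => by
        simp only [Prod.mk.injEq] at h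
        exact ext3 x x' h.2.2 h.1 h.2.1) a b)
      apply filter_congr
      intro x _
      simp)
    (by
      rintro ⟨a, b⟩
      refine (congrArg card ?_).trans (fib (fun x : Word k 3 => (y x 0, y x 1, y x 2))
        (fun x x' h => by
          simp only [Prod.mk.injEq] at h
          exact y.injective (ext3 _ _ h.1 h.2.1 h.2.2)) a b)
      apply filter_congr
      intro x _
      simp) hk
  -- second colouring
  have hex : ∀ a : Fin k, ∃ c : Word k 3 → Fin k,
      (∀ x, z x = a → ∀ x', z x' = a → x 2 = x' 2 → c x = c x' → x = x') ∧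
      (∀ x, z x = a → ∀ x', z x' = a → y x 0 = y x' 0 → c x = c x' → x = x') := by
    intro a
    obtain ⟨c, c1, c2⟩ := konig (fun x : Word k 3 => x 2) (fun x => y x 0) k
      (univ.filter (fun x => z x = a))
      (by
        intro b
        exact (congrArg card (filter_filter _ _ _)).trans
          (fib (fun x : Word k 3 => (z x, x 2, x 1)) (fun x x' h => by
            simp only [Prod.mk.injEq] at h
            exact z1 x (mem_univ _) x' (mem_univ _) (Prod.ext h.2.2 h.2.1) h.1) a b))
      (by
        intro b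
        exact (congrArg card (filter_filter _ _ _)).trans
          (fib (fun x : Word k 3 => (z x, y x 0, y x 1)) (fun x x' h => by
            simp only [Prod.mk.injEq] at h
            exact z2 x (mem_univ _) x' (mem_univ _) (Prod.ext h.2.1 h.2.2) h.1) a b)) hk
    exact ⟨c, fun x hx x' hx' => c1 x (mem_filter.2 ⟨mem_univ _, hx⟩) x'
      (mem_filter.2 ⟨mem_univ _, hx'⟩), fun x hx x' hx' => c2 x (mem_filter.2 ⟨mem_univ _, hx⟩) x'
      (mem_filter.2 ⟨mem_univ _, hx'⟩)⟩
  choose c c1 c2 using hex
  have C1 : ∀ x x', x 2 = x' 2 → z x = z x' → c (z x) x = c (z x') x' → x = x' := by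
    intro x x' h1 h2 h3
    exact c1 (z x) x rfl x' h2.symm h1 (by rw [h3, h2])
  have C2 : ∀ x x', y x 0 = y x' 0 → z x = z x' → c (z x) x = c (z x') x' → x = x' := by
    intro x x' h1 h2 h3
    exact c2 (z x) x rfl x' h2.symm h1 (by rw [h3, h2])
  have Z1 : ∀ x x', x 1 = x' 1 → x 2 = x' 2 → z x = z x' → x = x' := fun x x' h1 h2 h3 =>
    z1 x (mem_univ _) x' (mem_univ _) (Prod.ext h1 h2) h3
  have Z2 : ∀ x x', y x 0 = y x' 0 → y x 1 = y x' 1 → z x = z x' → x = x' := fun x x' h1 h2 h3 =>
    z2 x (mem_univ _) x' (mem_univ _) (Prod.ext h1 h2) h3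
  -- the windows
  have mk : ∀ F : Word k 3 → Word k 3, Function.Injective F → ∃ P : Perm (Word k 3), ∀ x, P x = F x :=
    fun F hF => ⟨Equiv.ofBijective F (Finite.injective_iff_bijective.1 hF), fun x => rfl⟩
  obtain ⟨P1, p1⟩ := mk (fun x => ![x 1, x 2, z x]) (fun x x' h => Z1 x x' (congrFun h 0)
    (congrFun h 1) (congrFun h 2))
  obtain ⟨P2, p2⟩ := mk (fun x => ![x 2, z x, c (z x) x]) (fun x x' h => C1 x x' (congrFun h 0)
    (congrFun h 1) (congrFun h 2))
  obtain ⟨P3, p3⟩ := mk (fun x => ![z x, c (z x) x, z x + y x 0]) (fun x x' h => by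
    have h0 : z x = z x' := congrFun h 0
    have h1 : c (z x) x = c (z x') x' := congrFun h 1
    have h2 : z x + y x 0 = z x' + y x' 0 := congrFun h 2
    rw [h0] at h2
    exact C2 x x' (add_left_cancel h2) h0 h1)
  obtain ⟨P4, p4⟩ := mk (fun x => ![c (z x) x, z x + y x 0, y x 0]) (fun x x' h => by
    have h0 : c (z x) x = c (z x') x' := congrFun h 0
    have h1 : z x + y x 0 = z x' + y x' 0 := congrFun h 1
    have h2 : y x 0 = y x' 0 := congrFun h 2
    rw [h2] at h1
    exact C2 x x' h2 (add_right_cancel h1) h0)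
  obtain ⟨P5, p5⟩ := mk (fun x => ![z x + y x 0, y x 0, y x 1]) (fun x x' h => by
    have h0 : z x + y x 0 = z x' + y x' 0 := congrFun h 0
    have h1 : y x 0 = y x' 0 := congrFun h 1
    have h2 : y x 1 = y x' 1 := congrFun h 2
    rw [h1] at h0
    exact Z2 x x' h1 h2 (add_right_cancel h0))
  have := of_windows (m := 6) (fun t => match t with
    | 0 => 1
    | 1 => P1
    | 2 => P2
    | 3 => P3
    | 4 => P4
    | 5 => P5
    | _ => y) rfl (by
      intro t ht x i hi
      have hi2 : i < 2 := by omega
      interval_cases t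
      · change P1 x _ = x _
        rw [p1]
        interval_cases i <;> rfl
      · change P2 x _ = P1 x _
        rw [p1, p2]
        interval_cases i <;> rfl
      · change P3 x _ = P2 x _
        rw [p2, p3]
        interval_cases i <;> rfl
      · change P4 x _ = P3 x _
        rw [p3, p4]
        interval_cases i <;> rfl
      · change P5 x _ = P4 x _
        rw [p4, p5]
        interval_cases i <;> rfl
      · change y x _ = P5 x _
        rw [p5]
        interval_cases i <;> rfl)
  exact this

end three

end Pool.Agent.W922.SX
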